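import Mathlib
import Pool.Agent.Q103.TG.Core

/-!
# Telograph-cototal enumeration degrees that are not finite joins of cylinder-cototal ones
-/

set_option autoImplicit false

open Filter Topology Set

namespace Pool.Agent.Results.MP_2b9a36_lc.TelographNotCylinder

/-- The canonical finite set with index `u`: the places of the binary digits `1` of `u`. -/
def D (u : ℕ) : Set ℕ := {y | u.testBit y = true}

/-- The set enumerated by the enumeration operator `W` from `X`. -/
def op (W X : Set ℕ) : Set ℕ := {n | ∃ u, Nat.pair n u ∈ W ∧ D u ⊆ X}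

/-- Enumeration reducibility `A ≤ₑ B`. -/
def EnumReducible (A B : Set ℕ) : Prop :=
  ∃ W : Set ℕ, REPred (fun z => z ∈ W) ∧ A = op W B

/-- `A` and `B` have the same `e`-degree. -/
def EnumEquiv (A B : Set ℕ) : Prop := EnumReducible A B ∧ EnumReducible B A

/-- The join `A ⊕ B`. -/
def join (A B : Set ℕ) : Set ℕ := {x | (∃ n ∈ A, x = 2 * n) ∨ ∃ n ∈ B, x = 2 * n + 1}

/-- The graph of `g`. -/
def Graph (g : ℕ → ℕ) : Set ℕ := {x | ∃ n, x = Nat.pair n (g n)}

/-- The (codes of the) initial segments of `g`. -/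
def CGraph (g : ℕ → ℕ) : Set ℕ := {x | ∃ k, x = Encodable.encode ((List.range k).map g)}

/-- The part of the graph of `g` above `b`. -/
def TGraph (b : ℕ) (g : ℕ → ℕ) : Set ℕ := {x | ∃ n, b ≤ g n ∧ x = Nat.pair n (g n)}

/-- The `e`-degree of `A` is cylinder-cototal. -/
def CylinderCototal (A : Set ℕ) : Prop := ∃ g : ℕ → ℕ, EnumEquiv A (CGraph g)ᶜ

/-- The `e`-degree of `A` is telograph-cototal. -/
def TelographCototal (A : Set ℕ) : Prop :=
  ∃ (g : ℕ → ℕ) (b : ℕ), EnumEquiv A (join (Graph g)ᶜ (TGraph b g))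

/-- The `e`-degree of `A` is the join (least upper bound) of `n` cylinder-cototal `e`-degrees. -/
def NCylinderCototal (n : ℕ) (A : Set ℕ) : Prop :=
  ∃ B : Fin n → Set ℕ, (∀ i, CylinderCototal (B i)) ∧ (∀ i, EnumReducible (B i) A) ∧
    ∀ C, (∀ i, EnumReducible (B i) C) → EnumReducible A C

/-! ### Countability of the enumeration operators -/

/-- The c.e. sets. -/
def RE : Type := {W : Set ℕ // REPred (fun z => z ∈ W)}

instance : Countable RE := by
  have key : ∀ W : RE, ∃ c : Nat.Partrec.Code, ∀ n, n ∈ W.1 ↔ (c.eval n).Dom := by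
    rintro ⟨W, hW⟩
    obtain ⟨c, hc⟩ := Nat.Partrec.Code.exists_code.1 hW
    refine ⟨c, fun n => ?_⟩
    rw [hc]
    simp [Part.assert]
  choose c hc using key
  refine Function.Injective.countable (f := c) fun W W' h => ?_
  apply Subtype.ext
  ext n
  rw [hc, hc, h]

theorem re_single (f : ℕ → ℕ) (hf : Primrec f) :
    REPred (fun z : ℕ => z ∈ {z : ℕ | z.unpair.2 = 2 ^ f z.unpair.1}) := by
  have hpow : Primrec₂ (fun a b : ℕ => a ^ b) := Primrec₂.unpaired'.1 Nat.Primrec.pow
  have h1 : Primrec fun z : ℕ => z.unpair.2 := Primrec.snd.comp Primrec.unpair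
  have h2 : Primrec fun z : ℕ => z.unpair.1 := Primrec.fst.comp Primrec.unpair
  have h3 : Primrec fun z : ℕ => 2 ^ f z.unpair.1 :=
    hpow.comp (Primrec.const 2) (hf.comp h2)
  have h4 : PrimrecPred fun z : ℕ => z.unpair.2 = 2 ^ f z.unpair.1 := Primrec.eq.comp h1 h3
  exact h4.computablePred.to_re

theorem D_two_pow (m : ℕ) : D (2 ^ m) = {m} := by
  ext y
  simp [D, Nat.testBit_two_pow, eq_comm]

theorem finite_D (u : ℕ) : (D u).Finite := by
  refine (Set.finite_lt_nat u).subset fun y hy => ?_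
  have : 2 ^ y ≤ u := Nat.ge_two_pow_of_testBit hy
  exact lt_of_lt_of_le Nat.lt_two_pow_self this

theorem op_single (f : ℕ → ℕ) (X : Set ℕ) :
    op {z : ℕ | z.unpair.2 = 2 ^ f z.unpair.1} X = {n | f n ∈ X} := by
  ext n
  simp only [op, mem_ofPred_eq, Nat.unpair_pair]
  constructor
  · rintro ⟨u, rfl, h⟩
    rw [D_two_pow] at h
    exact h rfl
  · intro h
    exact ⟨_, rfl, by rw [D_two_pow]; exact Set.singleton_subset_iff.2 h⟩

theorem refl (A : Set ℕ) : EnumReducible A A :=
  ⟨_, re_single id Primrec.id, by rw [op_single]; rfl⟩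

/-- The explicit join of a family. -/
def BJ {n : ℕ} (B : Fin n → Set ℕ) : Set ℕ := {z | ∃ i : Fin n, ∃ y ∈ B i, z = Nat.pair i y}

theorem le_BJ {n : ℕ} (B : Fin n → Set ℕ) (i : Fin n) : EnumReducible (B i) (BJ B) := by
  have hp : Primrec fun m : ℕ => Nat.pair (i : ℕ) m :=
    Primrec₂.natPair.comp (Primrec.const _) Primrec.id
  refine ⟨_, re_single (fun m => Nat.pair i m) hp, ?_⟩
  rw [op_single]
  ext m
  constructor
  · intro h
    exact ⟨i, m, h, rfl⟩
  · rintro ⟨j, y, hy, h⟩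
    obtain ⟨h1, h2⟩ := Nat.pair_eq_pair.1 h
    rw [h2, Fin.ext h1]
    exact hy

/-! ### The points and the conditions -/

/-- The set of a point. -/
def T (b : ℕ) (x : ℕ → ℕ) : Set ℕ := join (Graph x)ᶜ (TGraph b x)

theorem even_mem_T {b : ℕ} {x : ℕ → ℕ} {p q : ℕ} : 2 * Nat.pair p q ∈ T b x ↔ x p ≠ q := by
  constructor
  · rintro (⟨n, hn, h⟩ | ⟨n, hn, h⟩)
    · intro hpq
      have : n = Nat.pair p q := by omega
      exact hn ⟨p, by rw [this, hpq]⟩
    · omega
  · intro h
    refine Or.inl ⟨_, ?_, rfl⟩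
    rintro ⟨n, hn⟩
    obtain ⟨rfl, rfl⟩ := Nat.pair_eq_pair.1 hn
    exact h rfl

theorem odd_mem_T {b : ℕ} {x : ℕ → ℕ} {p q : ℕ} :
    2 * Nat.pair p q + 1 ∈ T b x ↔ b ≤ q ∧ x p = q := by
  constructor
  · rintro (⟨n, hn, h⟩ | ⟨n, hn, h⟩)
    · omega
    · have : n = Nat.pair p q := by omega
      obtain ⟨k, hk, h'⟩ := hn
      rw [this] at h'
      obtain ⟨rfl, rfl⟩ := Nat.pair_eq_pair.1 h'
      exact ⟨hk, rfl⟩
  · rintro ⟨h, rfl⟩
    exact Or.inr ⟨_, ⟨p, h, rfl⟩, rfl⟩

/-- Every number is of one of these two forms. -/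
theorem form (w : ℕ) : ∃ p q, w = 2 * Nat.pair p q ∨ w = 2 * Nat.pair p q + 1 := by
  refine ⟨(w / 2).unpair.1, (w / 2).unpair.2, ?_⟩
  rw [Nat.pair_unpair]
  omega

variable {n : ℕ}

/-- The conditions which a tuple of operators witnessing that `T b x` is `n`-cylinder-cototal
satisfies at `x`. -/
def Q (b : ℕ) (W₁ W₂ W₃ : Fin n → RE) (V : RE) (x : ℕ → ℕ) : Prop :=
  (∀ i, ∀ σ τ : List ℕ, τ <+: σ → Encodable.encode τ ∈ op (W₁ i).1 (op (W₂ i).1 (T b x)) →
    Encodable.encode σ ∈ op (W₁ i).1 (op (W₂ i).1 (T b x))) ∧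
  (∀ i, ∀ σ τ : List ℕ, Encodable.encode σ ∉ op (W₁ i).1 (op (W₂ i).1 (T b x)) →
    Encodable.encode τ ∉ op (W₁ i).1 (op (W₂ i).1 (T b x)) → σ <+: τ ∨ τ <+: σ) ∧
  (∀ i, ∀ y, y ∈ op (W₂ i).1 (T b x) ↔
    y ∈ op (W₃ i).1 (op (W₁ i).1 (op (W₂ i).1 (T b x)))) ∧
  ∀ m, m ∈ T b x ↔ m ∈ op V.1 (BJ fun i => op (W₂ i).1 (T b x))

theorem mem_CGraph {g : ℕ → ℕ} {σ : List ℕ} :
    Encodable.encode σ ∈ CGraph g ↔ σ = (List.range σ.length).map g := by
  constructor
  · rintro ⟨k, hk⟩
    have h := Encodable.encode_injective hk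
    have : σ.length = k := by rw [h]; simp
    rw [this]
    exact h
  · intro h
    exact ⟨σ.length, by rw [← h]⟩

theorem Q_of {b : ℕ} {x : ℕ → ℕ} (h : NCylinderCototal n (T b x)) :
    ∃ (W₁ W₂ W₃ : Fin n → RE) (V : RE), Q b W₁ W₂ W₃ V x := by
  obtain ⟨B, hB, hBT, hlub⟩ := h
  choose g hg using hB
  choose W₃ hW₃ hW₃' using fun i => (hg i).1
  choose W₁ hW₁ hW₁' using fun i => (hg i).2
  choose W₂ hW₂ hW₂' using hBT
  obtain ⟨V, hV, hV'⟩ := hlub (BJ B) (le_BJ B)
  refine ⟨fun i => ⟨W₁ i, hW₁ i⟩, fun i => ⟨W₂ i, hW₂ i⟩, fun i => ⟨W₃ i, hW₃ i⟩, ⟨V, hV⟩, ?_⟩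
  have e2 : (fun i => op (W₂ i) (T b x)) = B := funext fun i => (hW₂' i).symm
  have e1 : ∀ i, op (W₁ i) (op (W₂ i) (T b x)) = (CGraph (g i))ᶜ := by
    intro i
    rw [← hW₂' i, ← hW₁' i]
  refine ⟨?_, ?_, ?_, ?_⟩
  · intro i σ τ hp
    rw [e1]
    intro h1 h2
    apply h1
    rw [mem_CGraph] at h2 ⊢
    obtain ⟨ρ, rfl⟩ := hp
    rw [List.length_append, List.range_add, List.map_append] at h2
    exact (List.append_inj h2 (by simp)).1
  · intro i σ τ
    rw [e1]
    intro h1 h2
    have h1' := mem_CGraph.1 (not_not.1 h1)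
    have h2' := mem_CGraph.1 (not_not.1 h2)
    rcases le_total σ.length τ.length with hl | hl
    · left
      rw [h1', h2']
      obtain ⟨k, hk⟩ := Nat.exists_eq_add_of_le hl
      rw [hk, List.range_add, List.map_append]
      exact List.prefix_append _ _
    · right
      rw [h1', h2']
      obtain ⟨k, hk⟩ := Nat.exists_eq_add_of_le hl
      rw [hk, List.range_add, List.map_append]
      exact List.prefix_append _ _
  · intro i y
    rw [e1, ← hW₂' i]
    exact Set.ext_iff.1 (hW₃' i) y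
  · intro m
    simp only
    rw [e2]
    exact Set.ext_iff.1 hV' m

/-! ### Measurability -/

theorem measurable_op {F : (ℕ → ℕ) → Set ℕ} (hF : ∀ m, Measurable fun x => m ∈ F x) (W : Set ℕ)
    (m : ℕ) : Measurable fun x => m ∈ op W (F x) := by
  have h : (fun x => m ∈ op W (F x)) =
      fun x => ∃ u, Nat.pair m u ∈ W ∧ ∀ y, y ∈ D u → y ∈ F x := by
    funext x
    rfl
  rw [h]
  exact Measurable.exists fun u => measurable_const.and
    (Measurable.forall fun y => measurable_const.imp (hF y))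

theorem measurable_T (b m : ℕ) : Measurable fun x : ℕ → ℕ => m ∈ T b x := by
  obtain ⟨p, q, rfl | rfl⟩ := form m
  · simp only [even_mem_T]
    have : Measurable fun x : ℕ → ℕ => x p := measurable_pi_apply p
    exact (measurableSet_setOfPred.1 (this (measurableSet_singleton q))).not
  · simp only [odd_mem_T]
    have : Measurable fun x : ℕ → ℕ => x p := measurable_pi_apply p
    exact measurable_const.and (measurableSet_setOfPred.1 (this (measurableSet_singleton q)))

theorem measurable_BJ {F : Fin n → (ℕ → ℕ) → Set ℕ} (hF : ∀ i m, Measurable fun x => m ∈ F i x)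
    (m : ℕ) : Measurable fun x => m ∈ BJ fun i => F i x := by
  have h : (fun x => m ∈ BJ fun i => F i x) =
      fun x => ∃ i : Fin n, ∃ y, y ∈ F i x ∧ m = Nat.pair i y := by
    funext x
    rfl
  rw [h]
  exact Measurable.exists fun i => Measurable.exists fun y => (hF i y).and measurable_const

theorem measurable_Q (b : ℕ) (W₁ W₂ W₃ : Fin n → RE) (V : RE) :
    MeasurableSet {x | Q b W₁ W₂ W₃ V x} := by
  have hZ : ∀ i m, Measurable fun x => m ∈ op (W₂ i).1 (T b x) := fun i m =>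
    measurable_op (measurable_T b) _ m
  have hY : ∀ i m, Measurable fun x => m ∈ op (W₁ i).1 (op (W₂ i).1 (T b x)) := fun i m =>
    measurable_op (hZ i) _ m
  refine measurableSet_setOfPred.2 ?_
  unfold Q
  refine Measurable.and ?_ (Measurable.and ?_ (Measurable.and ?_ ?_))
  · exact Measurable.forall fun i => Measurable.forall fun σ => Measurable.forall fun τ =>
      measurable_const.imp ((hY i _).imp (hY i _))
  · exact Measurable.forall fun i => Measurable.forall fun σ => Measurable.forall fun τ =>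
      (hY i _).not.imp ((hY i _).not.imp measurable_const)
  · exact Measurable.forall fun i => Measurable.forall fun y =>
      (hZ i y).iff (measurable_op (hY i) _ y)
  · exact Measurable.forall fun m => (measurable_T b m).iff
      (measurable_op (measurable_BJ hZ) _ m)

/-! ### Moving points -/

/-- The point which agrees with `x₀` before `N`, with `a` on the next `n + 1` places and with `x`
afterwards. -/
def mv (x₀ : ℕ → ℕ) (N n : ℕ) (a : Fin (n + 1) → ℕ) (x : ℕ → ℕ) (m : ℕ) : ℕ :=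
  if m < N then x₀ m else if h : m - N < n + 1 then a ⟨m - N, h⟩ else x m

theorem mv_at (x₀ : ℕ → ℕ) (N n : ℕ) (a : Fin (n + 1) → ℕ) (x : ℕ → ℕ) (j : Fin (n + 1)) :
    mv x₀ N n a x (N + j) = a j := by
  have h : N + (j : ℕ) - N < n + 1 := by omega
  rw [mv, if_neg (by omega), dif_pos h]
  congr 1
  ext
  simp

theorem continuous_mv (x₀ : ℕ → ℕ) (N n : ℕ) (a : Fin (n + 1) → ℕ) :
    Continuous (mv x₀ N n a) := by
  refine continuous_pi fun m => ?_
  unfold mv
  split_ifs
  · exact continuous_const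
  · exact continuous_const
  · exact continuous_apply m

theorem isOpenMap_mv (x₀ : ℕ → ℕ) (N n : ℕ) (a : Fin (n + 1) → ℕ) :
    IsOpenMap (mv x₀ N n a) := by
  intro U hU
  rw [(PiNat.isTopologicalBasis_cylinders (fun _ : ℕ => ℕ)).isOpen_iff]
  rintro _ ⟨x, hx, rfl⟩
  obtain ⟨_, ⟨x', M, rfl⟩, hxM, hMU⟩ :=
    (PiNat.isTopologicalBasis_cylinders (fun _ : ℕ => ℕ)).isOpen_iff.1 hU x hx
  refine ⟨_, ⟨mv x₀ N n a x, M + N + n + 1, rfl⟩, PiNat.self_mem_cylinder _ _, ?_⟩
  intro z hz
  rw [PiNat.mem_cylinder_iff] at hz hxM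
  refine ⟨fun m => if m < M then x m else z m, hMU ?_, ?_⟩
  · rw [PiNat.mem_cylinder_iff]
    intro m hm
    simp only [if_pos hm]
    exact hxM m hm
  · funext m
    by_cases h1 : m < M + N + n + 1
    · rw [hz m h1]
      have hzm := hz m h1
      unfold mv at hzm ⊢
      split_ifs at hzm ⊢ with h2 h3
      · rfl
      · rfl
      · show (if m < M then x m else z m) = x m
        split_ifs
        · rfl
        · exact hzm
    · unfold mv
      rw [if_neg (by omega), dif_neg (by omega)]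
      show (if m < M then x m else z m) = z m
      rw [if_neg (by omega)]

/-- The values of a point of the cube. -/
def val (s : Fin (n + 1) → Bool) (j : Fin (n + 1)) : ℕ := (s j).toNat

/-- The direction `j` is kept, the other coordinates are `M`. -/
def lim (s : Fin (n + 1) → Bool) (j : Fin (n + 1)) (M : ℕ) (l : Fin (n + 1)) : ℕ :=
  if l = j then val s j else M

theorem T_eventually {b : ℕ} (hb : 2 ≤ b) (x₀ : ℕ → ℕ) (N : ℕ) (x : ℕ → ℕ)
    (s : Fin (n + 1) → Bool) (j : Fin (n + 1)) {w : ℕ}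
    (hw : w ∈ T b (mv x₀ N n (val s) x)) :
    ∀ᶠ M in atTop, w ∈ T b (mv x₀ N n (lim s j M) x) := by
  have hlt : ∀ l, val s l < 2 := by
    intro l
    unfold val
    cases s l <;> simp
  obtain ⟨p, q, rfl | rfl⟩ := form w
  · rw [even_mem_T] at hw
    filter_upwards [eventually_gt_atTop q] with M hM
    rw [even_mem_T]
    unfold mv at hw ⊢
    split_ifs at hw ⊢ with h1 h2
    · exact hw
    · unfold lim
      split_ifs with h3
      · rw [← h3]; exact hw
      · omega
    · exact hw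
  · rw [odd_mem_T] at hw
    filter_upwards with M
    rw [odd_mem_T]
    refine ⟨hw.1, ?_⟩
    obtain ⟨hq, hw⟩ := hw
    unfold mv at hw ⊢
    split_ifs at hw ⊢ with h1 h2
    · exact hw
    · have := hlt ⟨p - N, h2⟩
      omega
    · exact hw

theorem op_eventually {F : ℕ → Set ℕ} {A : Set ℕ} (h : ∀ w ∈ A, ∀ᶠ M in atTop, w ∈ F M)
    (W : Set ℕ) : ∀ w ∈ op W A, ∀ᶠ M in atTop, w ∈ op W (F M) := by
  rintro w ⟨u, hu, hD⟩
  have : ∀ᶠ M in atTop, ∀ y ∈ D u, y ∈ F M :=
    (eventually_all_finite (finite_D u)).2 fun y hy => h y (hD hy)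
  filter_upwards [this] with M hM
  exact ⟨u, hu, hM⟩

theorem no_cube {b : ℕ} (hb : 2 ≤ b) (W₁ W₂ W₃ : Fin n → RE) (V : RE) (x₀ : ℕ → ℕ) (N : ℕ)
    (x : ℕ → ℕ) (h : ∀ a : Fin (n + 1) → ℕ, Q b W₁ W₂ W₃ V (mv x₀ N n a x)) : False := by
  classical
  let Y : Fin n → (Fin (n + 1) → ℕ) → Set ℕ := fun i a =>
    op (W₁ i).1 (op (W₂ i).1 (T b (mv x₀ N n a x)))
  have key := Pool.Agent.Q103.TG.core (ι := Fin (n + 1)) (κ := Fin n) Finset.univ Finset.univ
    (fun _ => false) (fun i s => {σ | Encodable.encode σ ∉ Y i (val s)}) (by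
      intro i s σ τ h1 hp h2
      exact h1 ((h (val s)).1 i σ τ hp h2)) (by
      intro i s σ τ h1 h2
      exact (h (val s)).2.1 i σ τ h1 h2) (by
      intro s _ j _
      by_contra hcon
      push Not at hcon
      -- every element of some `Y i` at `s` stays in `Y i` along the sequences
      have hlim : ∀ i, ∀ y ∈ Y i (val s), ∀ᶠ M in atTop,
          y ∈ Y i (lim (Function.update s j (!s j)) j M) := by
        intro i y hy
        obtain ⟨σ, rfl⟩ : ∃ σ : List ℕ, y = Encodable.encode σ :=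
          ⟨Denumerable.ofNat (List ℕ) y, (Denumerable.encode_ofNat y).symm⟩
        obtain ⟨t, _, htj, ht⟩ := hcon i (Finset.mem_univ i) σ (fun h' => h' hy)
        have ht' : Encodable.encode σ ∈ Y i (val t) := not_not.1 ht
        have htj' : t j = !s j := by
          cases h1 : t j <;> cases h2 : s j <;> simp_all
        have e : ∀ M, lim (Function.update s j (!s j)) j M = lim t j M := by
          intro M
          funext l
          unfold lim val
          rw [Function.update_self, htj']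
        simp only [e]
        exact op_eventually (op_eventually (fun w hw => T_eventually hb x₀ N x t j hw) _) _ _ ht'
      have hB : ∀ i, ∀ y ∈ op (W₂ i).1 (T b (mv x₀ N n (val s) x)), ∀ᶠ M in atTop,
          y ∈ op (W₂ i).1 (T b (mv x₀ N n (lim (Function.update s j (!s j)) j M) x)) := by
        intro i y hy
        rw [(h (val s)).2.2.1 i y] at hy
        filter_upwards [op_eventually (hlim i) _ y hy] with M hM
        rw [(h _).2.2.1 i y]
        exact hM
      have hBJ : ∀ z ∈ BJ (fun i => op (W₂ i).1 (T b (mv x₀ N n (val s) x))), ∀ᶠ M in atTop,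
          z ∈ BJ (fun i => op (W₂ i).1
            (T b (mv x₀ N n (lim (Function.update s j (!s j)) j M) x))) := by
        rintro _ ⟨i, y, hy, rfl⟩
        filter_upwards [hB i y hy] with M hM
        exact ⟨i, y, hM, rfl⟩
      have h1 : 2 * Nat.pair (N + j) (!s j).toNat ∈ T b (mv x₀ N n (val s) x) := by
        rw [even_mem_T, mv_at]
        unfold val
        cases s j <;> simp
      rw [(h (val s)).2.2.2] at h1
      obtain ⟨M, hM⟩ := (op_eventually hBJ _ _ h1).exists
      rw [← (h _).2.2.2, even_mem_T, mv_at] at hM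
      apply hM
      unfold lim val
      rw [if_pos rfl, Function.update_self])
  simp at key

theorem meagre_Q {b : ℕ} (hb : 2 ≤ b) (W₁ W₂ W₃ : Fin n → RE) (V : RE) :
    IsMeagre {x | Q b W₁ W₂ W₃ V x} := by
  obtain ⟨u, hu, hSu⟩ := (measurable_Q b W₁ W₂ W₃ V).residualEq_isOpen
  rcases u.eq_empty_or_nonempty with rfl | ⟨x₀, hx₀⟩
  · filter_upwards [hSu] with x hx
    intro hQ
    have : x ∈ (∅ : Set (ℕ → ℕ)) := by
      have h' : ({x | Q b W₁ W₂ W₃ V x} x) = ((∅ : Set (ℕ → ℕ)) x) := hx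
      exact h'.mp hQ
    exact this
  · exfalso
    obtain ⟨_, ⟨x₁, N, rfl⟩, hxN, hNu⟩ :=
      (PiNat.isTopologicalBasis_cylinders (fun _ : ℕ => ℕ)).isOpen_iff.1 hu x₀ hx₀
    have hall : ∀ᶠ x in residual (ℕ → ℕ), ∀ a : Fin (n + 1) → ℕ,
        Q b W₁ W₂ W₃ V (mv x₀ N n a x) := by
      refine eventually_countable_forall.2 fun a => ?_
      have ht := tendsto_residual_of_isOpenMap (continuous_mv x₀ N n a) (isOpenMap_mv x₀ N n a)
      filter_upwards [ht.eventually hSu] with x hx
      have h' : ({x | Q b W₁ W₂ W₃ V x} (mv x₀ N n a x)) = (u (mv x₀ N n a x)) := hx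
      refine h'.mpr (hNu ?_)
      rw [PiNat.mem_cylinder_iff] at hxN ⊢
      intro m hm
      rw [mv, if_pos hm]
      exact hxN m hm
    obtain ⟨x, hx⟩ := (dense_of_mem_residual hall).nonempty
    exact no_cube hb W₁ W₂ W₃ V x₀ N x hx

/-- For every `b ≥ 2` and for comeagrely many `g` in Baire space, the telograph-cototal `e`-degree
of `(ω ∖ Graph g) ⊕ TGraph_b g` is not the join of finitely many cylinder-cototal `e`-degrees. In
particular there is a telograph-cototal `e`-degree that is not `n`-cylinder-cototal for any `n`. -/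
theorem result :
    (∀ b : ℕ, 2 ≤ b → ∀ᶠ g in residual (ℕ → ℕ),
      TelographCototal (join (Graph g)ᶜ (TGraph b g)) ∧
        ∀ n, ¬ NCylinderCototal n (join (Graph g)ᶜ (TGraph b g))) ∧
    ∃ A : Set ℕ, TelographCototal A ∧ ∀ n, ¬ NCylinderCototal n A := by
  have main : ∀ b : ℕ, 2 ≤ b → ∀ᶠ g in residual (ℕ → ℕ),
      TelographCototal (join (Graph g)ᶜ (TGraph b g)) ∧
        ∀ n, ¬ NCylinderCototal n (join (Graph g)ᶜ (TGraph b g)) := by
    intro b hb
    have h : ∀ᶠ g in residual (ℕ → ℕ), ∀ n, ∀ W₁ W₂ W₃ : Fin n → RE, ∀ V : RE,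
        ¬ Q b W₁ W₂ W₃ V g := by
      refine eventually_countable_forall.2 fun n => eventually_countable_forall.2 fun W₁ =>
        eventually_countable_forall.2 fun W₂ => eventually_countable_forall.2 fun W₃ =>
        eventually_countable_forall.2 fun V => ?_
      exact meagre_Q hb W₁ W₂ W₃ V
    filter_upwards [h] with g hg
    refine ⟨⟨g, b, refl _, refl _⟩, fun n hn => ?_⟩
    obtain ⟨W₁, W₂, W₃, V, hQ⟩ := Q_of (b := b) (x := g) hn
    exact hg n W₁ W₂ W₃ V hQ
  refine ⟨main, ?_⟩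
  obtain ⟨g, hg⟩ := (dense_of_mem_residual (main 2 le_rfl)).nonempty
  exact ⟨_, hg⟩

end Pool.Agent.Results.MP_2b9a36_lc.TelographNotCylinder
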